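import Mathlib

/-!
Tournament minimum rank of dijoins with the directed triangle:
`tmr (D → C₃) = tmr D + 1 = tmr (C₃ → D)` for every tournament `D`.
-/

namespace Pool.Agent.Results.MP_7ecff9_co.DijoinTriangle

open Matrix

/-- A tournament on the vertex type `V`. -/
structure Tourn (V : Type) where
  /-- `arc u v` means that `uv` is an edge. -/
  arc : V → V → Prop
  /-- there is no loop -/
  loopless : ∀ v, ¬ arc v v
  /-- exactly one of `uv`, `vu` is an edge -/
  total : ∀ u v, u ≠ v → (arc u v ↔ ¬ arc v u)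

variable {V W : Type}

/-- A tournament is transitive if it has no directed cycle. -/
def Transitive (T : Tourn V) : Prop := ∀ v, ¬ Relation.TransGen T.arc v v

/-- The graph `G_{D,T}`: `ij` is an edge exactly when the pair `{i,j}` is oriented differently in
`D` and in `T`. -/
def diffGraph (D T : Tourn V) : SimpleGraph V where
  Adj u v := (D.arc u v ∧ T.arc v u) ∨ (D.arc v u ∧ T.arc u v)
  symm := ⟨fun _ _ h => h.symm⟩
  loopless := ⟨fun v h => by
    rcases h with h | h
    · exact D.loopless v h.1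
    · exact D.loopless v h.1⟩

/-- `M` belongs to `𝓜(G)`: it coincides with the adjacency matrix of `G` off the diagonal, the
diagonal entries being arbitrary. -/
def InM (G : SimpleGraph V) (M : Matrix V V (ZMod 2)) : Prop :=
  ∀ u v, u ≠ v → ((G.Adj u v → M u v = 1) ∧ (¬ G.Adj u v → M u v = 0))

/-- The tournament minimum rank over the field with two elements. -/
noncomputable def tmr [Fintype V] (D : Tourn V) : ℕ :=
  sInf {r | ∃ T : Tourn V, Transitive T ∧ ∃ M : Matrix V V (ZMod 2),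
    InM (diffGraph D T) M ∧ M.rank = r}

/-- The dijoin `D → E`. -/
def dijoin (D : Tourn V) (E : Tourn W) : Tourn (V ⊕ W) where
  arc := fun x y => match x, y with
    | Sum.inl u, Sum.inl v => D.arc u v
    | Sum.inr u, Sum.inr v => E.arc u v
    | Sum.inl _, Sum.inr _ => True
    | Sum.inr _, Sum.inl _ => False
  loopless := by
    rintro (v | v)
    · exact D.loopless v
    · exact E.loopless v
  total := by
    rintro (u | u) (v | v) h
    · exact D.total u v (fun e => h (by rw [e]))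
    · simp
    · simp
    · exact E.total u v (fun e => h (by rw [e]))

/-- The directed triangle `0 → 1 → 2 → 0`. -/
def C3 : Tourn (Fin 3) where
  arc := fun i j => j = i + 1
  loopless := by decide
  total := by decide

/-- All arcs reversed. -/
def rev (T : Tourn V) : Tourn V where
  arc := fun u v => T.arc v u
  loopless := T.loopless
  total := fun u v h => T.total v u h.symm

lemma asymm' (T : Tourn V) {u v : V} (h : T.arc u v) : ¬ T.arc v u := by
  have hne : u ≠ v := by
    rintro rfl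
    exact T.loopless _ h
  exact (T.total u v hne).1 h

lemma tri (T : Tourn V) (u v : V) : T.arc u v ∨ u = v ∨ T.arc v u := by
  by_cases h : u = v
  · exact Or.inr (Or.inl h)
  · by_cases h2 : T.arc v u
    · exact Or.inr (Or.inr h2)
    · exact Or.inl ((T.total u v h).2 h2)

lemma Transitive.trans {T : Tourn V} (h : Transitive T) {u v w : V} (h1 : T.arc u v)
    (h2 : T.arc v w) : T.arc u w := by
  rcases tri T u w with h3 | h3 | h3
  · exact h3
  · subst h3
    exact absurd h2 (asymm' T h1)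
  · exact absurd (((Relation.TransGen.single h1).tail h2).tail h3) (h u)

lemma transitive_of_trans {T : Tourn V} (h : ∀ u v w, T.arc u v → T.arc v w → T.arc u w) :
    Transitive T := by
  have key : ∀ u v, Relation.TransGen T.arc u v → T.arc u v := by
    intro u v huv
    induction huv with
    | single h1 => exact h1
    | tail _ h2 ih => exact h _ _ _ ih h2
  intro v hv
  exact T.loopless v (key v v hv)

/-- the entries in an element of `𝓜(G_{D,T})` -/
lemma InM.one {D T : Tourn V} {M : Matrix V V (ZMod 2)} (h : InM (diffGraph D T) M) {u v : V}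
    (h1 : D.arc u v) (h2 : T.arc v u) : M u v = 1 ∧ M v u = 1 := by
  have hne : u ≠ v := by
    rintro rfl
    exact D.loopless _ h1
  exact ⟨(h u v hne).1 (Or.inl ⟨h1, h2⟩), (h v u hne.symm).1 (Or.inr ⟨h1, h2⟩)⟩

lemma InM.zero {D T : Tourn V} {M : Matrix V V (ZMod 2)} (h : InM (diffGraph D T) M) {u v : V}
    (h1 : D.arc u v) (h2 : T.arc u v) : M u v = 0 ∧ M v u = 0 := by
  have hne : u ≠ v := by
    rintro rfl
    exact D.loopless _ h1
  refine ⟨(h u v hne).2 ?_, (h v u hne.symm).2 ?_⟩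
  · rintro (h3 | h3)
    · exact asymm' T h2 h3.2
    · exact asymm' D h1 h3.1
  · rintro (h3 | h3)
    · exact asymm' D h1 h3.1
    · exact asymm' T h2 h3.2

lemma inM_iff {D T : Tourn V} {M : Matrix V V (ZMod 2)} :
    InM (diffGraph D T) M ↔ ∀ u v, D.arc u v → ((T.arc v u → M u v = 1 ∧ M v u = 1) ∧
      (T.arc u v → M u v = 0 ∧ M v u = 0)) := by
  constructor
  · intro h u v huv
    exact ⟨fun h2 => h.one huv h2, fun h2 => h.zero huv h2⟩
  · intro h u v huv
    constructor
    · rintro (h3 | h3)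
      · exact ((h u v h3.1).1 h3.2).1
      · exact ((h v u h3.1).1 h3.2).2
    · intro h3
      rcases tri D u v with h4 | h4 | h4
      · rcases tri T u v with h5 | h5 | h5
        · exact ((h u v h4).2 h5).1
        · exact absurd h5 huv
        · exact absurd (Or.inl ⟨h4, h5⟩) h3
      · exact absurd h4 huv
      · rcases tri T u v with h5 | h5 | h5
        · exact absurd (Or.inr ⟨h4, h5⟩) h3
        · exact absurd h5 huv
        · exact ((h v u h4).2 h5).2

lemma InM.symm {D T : Tourn V} {M : Matrix V V (ZMod 2)} (h : InM (diffGraph D T) M) (u v : V) :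
    M u v = M v u := by
  by_cases huv : u = v
  · rw [huv]
  · by_cases hG : (diffGraph D T).Adj u v
    · rw [(h u v huv).1 hG, (h v u (Ne.symm huv)).1 hG.symm]
    · rw [(h u v huv).2 hG, (h v u (Ne.symm huv)).2 (fun hh => hG hh.symm)]

lemma exists_transitive [Fintype V] : ∃ T : Tourn V, Transitive T := by
  classical
  let e := Fintype.equivFin V
  refine ⟨⟨fun u v => e u < e v, fun v => lt_irrefl _, fun u v h => ?_⟩, ?_⟩
  · constructor
    · intro h1
      exact not_lt.2 h1.le
    · intro h1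
      exact lt_of_le_of_ne (not_lt.1 h1) (fun h2 => h (e.injective h2))
  · apply transitive_of_trans
    intro u v w h1 h2
    exact lt_trans h1 h2

lemma exists_inM (D T : Tourn V) : ∃ M : Matrix V V (ZMod 2), InM (diffGraph D T) M := by
  classical
  refine ⟨fun u v => if (diffGraph D T).Adj u v then 1 else 0, ?_⟩
  intro u v _
  exact ⟨fun h => by simp [h], fun h => by simp [h]⟩

lemma tmr_spec [Fintype V] (D : Tourn V) : ∃ T : Tourn V, Transitive T ∧
    ∃ M : Matrix V V (ZMod 2), InM (diffGraph D T) M ∧ M.rank = tmr D := by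
  have : {r | ∃ T : Tourn V, Transitive T ∧ ∃ M : Matrix V V (ZMod 2),
    InM (diffGraph D T) M ∧ M.rank = r}.Nonempty := by
    obtain ⟨T, hT⟩ := exists_transitive (V := V)
    obtain ⟨M, hM⟩ := exists_inM D T
    exact ⟨M.rank, T, hT, M, hM, rfl⟩
  exact Nat.sInf_mem this

lemma tmr_le [Fintype V] {D T : Tourn V} (hT : Transitive T) {M : Matrix V V (ZMod 2)}
    (hM : InM (diffGraph D T) M) : tmr D ≤ M.rank :=
  Nat.sInf_le ⟨T, hT, M, hM, rfl⟩

/-- reversing all arcs does not change the minimum rank -/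
lemma tmr_rev_le [Fintype V] (D : Tourn V) : tmr (rev D) ≤ tmr D := by
  obtain ⟨T, hT, M, hM, hr⟩ := tmr_spec D
  rw [← hr]
  have h1 : Transitive (rev T) := by
    apply transitive_of_trans
    intro u v w h1 h2
    exact hT.trans h2 h1
  refine tmr_le h1 (M := M) ?_
  rw [inM_iff] at hM ⊢
  intro u v huv
  have := hM v u huv
  exact ⟨fun h => (this.1 h).symm, fun h => (this.2 h).symm⟩

lemma tmr_rev [Fintype V] (D : Tourn V) : tmr (rev D) = tmr D :=
  le_antisymm (tmr_rev_le D) (tmr_rev_le (rev D))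

/-- isomorphic tournaments have the same minimum rank -/
lemma tmr_iso_le [Fintype V] [Fintype W] (D : Tourn V) (E : Tourn W) (e : V ≃ W)
    (he : ∀ u v, D.arc u v ↔ E.arc (e u) (e v)) : tmr D ≤ tmr E := by
  obtain ⟨T, hT, M, hM, hr⟩ := tmr_spec E
  rw [← hr]
  let T' : Tourn V := ⟨fun u v => T.arc (e u) (e v), fun v => T.loopless _,
    fun u v h => T.total _ _ (fun h2 => h (e.injective h2))⟩
  have h1 : Transitive T' := by
    apply transitive_of_trans
    intro u v w h1 h2
    exact hT.trans h1 h2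
  have h2 : (M.submatrix e e).rank = M.rank := rank_submatrix M e e
  rw [← h2]
  refine tmr_le h1 ?_
  rw [inM_iff] at hM ⊢
  intro u v huv
  exact hM _ _ ((he u v).1 huv)

lemma tmr_iso [Fintype V] [Fintype W] (D : Tourn V) (E : Tourn W) (e : V ≃ W)
    (he : ∀ u v, D.arc u v ↔ E.arc (e u) (e v)) : tmr D = tmr E :=
  le_antisymm (tmr_iso_le D E e he) (tmr_iso_le E D e.symm (fun u v => by rw [he]; simp))

/-- Flip the pairs in a symmetric relation. -/
noncomputable def flip (T : Tourn V) (S : V → V → Prop) (hS : ∀ u v, S u v → S v u) :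
    Tourn V where
  arc := fun u v => (¬ S u v ∧ T.arc u v) ∨ (S u v ∧ T.arc v u)
  loopless := fun v h => by
    rcases h with h | h
    · exact T.loopless v h.2
    · exact T.loopless v h.2
  total := fun u v h => by
    have h1 := hS u v
    have h2 := hS v u
    have h3 := T.total u v h
    tauto

/-- The abstract rank drop. -/
lemma rank_drop [Fintype V] (M : Matrix V V (ZMod 2))
    (N : Matrix V V (ZMod 2)) (y z : V → ZMod 2)
    (hN : ∀ k, N *ᵥ k = M *ᵥ k + (z ⬝ᵥ M *ᵥ k) • (M *ᵥ y) + (y ⬝ᵥ M *ᵥ k) • (M *ᵥ z))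
    (h1 : z ⬝ᵥ M *ᵥ y = 1) (h2 : y ⬝ᵥ M *ᵥ y = 0) : N.rank < M.rank := by
  classical
  have hker : LinearMap.ker M.mulVecLin < LinearMap.ker N.mulVecLin := by
    refine lt_of_le_of_ne ?_ ?_
    · intro k hk
      rw [LinearMap.mem_ker, Matrix.mulVecLin_apply] at hk ⊢
      rw [hN, hk]
      simp
    · intro h
      have hy : y ∈ LinearMap.ker N.mulVecLin := by
        rw [LinearMap.mem_ker, Matrix.mulVecLin_apply, hN, h1, h2]
        simp only [one_smul, zero_smul, add_zero]
        funext v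
        exact CharTwo.add_self_eq_zero _
      rw [← h, LinearMap.mem_ker, Matrix.mulVecLin_apply] at hy
      rw [hy] at h1
      simp at h1
  have hlt := Submodule.finrank_lt_finrank_of_lt hker
  have e1 := LinearMap.finrank_range_add_finrank_ker M.mulVecLin
  have e2 := LinearMap.finrank_range_add_finrank_ker N.mulVecLin
  rw [Matrix.rank, Matrix.rank]
  omega

/-- The second abstract rank drop. -/
lemma rank_drop' [Fintype V] (M : Matrix V V (ZMod 2))
    (N : Matrix V V (ZMod 2)) (y : V → ZMod 2)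
    (hN : ∀ k, N *ᵥ k = M *ᵥ k + (y ⬝ᵥ M *ᵥ k) • (M *ᵥ y))
    (h1 : y ⬝ᵥ M *ᵥ y = 1) : N.rank < M.rank := by
  classical
  have hker : LinearMap.ker M.mulVecLin < LinearMap.ker N.mulVecLin := by
    refine lt_of_le_of_ne ?_ ?_
    · intro k hk
      rw [LinearMap.mem_ker, Matrix.mulVecLin_apply] at hk ⊢
      rw [hN, hk]
      simp
    · intro h
      have hy : y ∈ LinearMap.ker N.mulVecLin := by
        rw [LinearMap.mem_ker, Matrix.mulVecLin_apply, hN, h1]
        simp only [one_smul]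
        funext v
        exact CharTwo.add_self_eq_zero _
      rw [← h, LinearMap.mem_ker, Matrix.mulVecLin_apply] at hy
      rw [hy] at h1
      simp at h1
  have hlt := Submodule.finrank_lt_finrank_of_lt hker
  have e1 := LinearMap.finrank_range_add_finrank_ker M.mulVecLin
  have e2 := LinearMap.finrank_range_add_finrank_ker N.mulVecLin
  rw [Matrix.rank, Matrix.rank]
  omega

lemma symm_dot [Fintype V] (M : Matrix V V (ZMod 2)) (hM : ∀ u v, M u v = M v u)
    (y k : V → ZMod 2) : (M *ᵥ y) ⬝ᵥ k = y ⬝ᵥ M *ᵥ k := by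
  have hT : Mᵀ = M := by
    ext u v
    exact hM v u
  rw [Matrix.dotProduct_mulVec, ← Matrix.mulVec_transpose, hT]

/-- adding a symmetric matrix to `M` amounts to flipping the pairs with entry one -/
lemma inM_flip {D T : Tourn V} {M : Matrix V V (ZMod 2)} (hM : InM (diffGraph D T) M)
    (E : V → V → ZMod 2) (hE : ∀ u v, E u v = 1 → E v u = 1) :
    InM (diffGraph D (flip T (fun u v => E u v = 1) hE)) (fun u v => M u v + E u v) := by
  have two : ∀ x : ZMod 2, x = 0 ∨ x = 1 := by decide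
  have hE0 : ∀ u v, E u v = E v u := by
    intro u v
    rcases two (E u v) with h | h <;> rcases two (E v u) with h' | h'
    · rw [h, h']
    · rw [hE _ _ h', h']
    · rw [hE _ _ h, h]
    · rw [h, h']
  rw [inM_iff] at hM ⊢
  intro u v huv
  obtain ⟨h1, h2⟩ := hM u v huv
  have e11 : (1 : ZMod 2) + 1 = 0 := by decide
  constructor
  · rintro (⟨h3, h4⟩ | ⟨h3, h4⟩)
    · have h5 : E v u = 0 := (two _).resolve_right h3
      have h6 : E u v = 0 := by rw [hE0, h5]
      simp [h5, h6, h1 h4]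
    · have h6 : E u v = 1 := by rw [hE0, h3]
      simp [h3, h6, h2 h4]
  · rintro (⟨h3, h4⟩ | ⟨h3, h4⟩)
    · have h5 : E u v = 0 := (two _).resolve_right h3
      have h6 : E v u = 0 := by rw [← hE0, h5]
      simp [h5, h6, h2 h4]
    · have h6 : E v u = 1 := by rw [← hE0, h3]
      simp [h3, h6, h1 h4, e11]

lemma flip_final {T : Tourn V} (hT : Transitive T) (U : V → Prop)
    (hU : ∀ u v, U u → T.arc u v → U v) (S : V → V → Prop) (hS : ∀ u v, S u v → S v u)
    (hSU : ∀ u v, S u v ↔ (U u ∧ U v)) : Transitive (flip T S hS) := by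
  apply transitive_of_trans
  have tr : ∀ u v w, T.arc u v → T.arc v w → T.arc u w := fun u v w h1 h2 => hT.trans h1 h2
  have ir : ∀ u v, T.arc u v → T.arc v u → False := fun u v h1 h2 => asymm' T h1 h2
  have ir' : ∀ u, ¬ T.arc u u := T.loopless
  have tt := tri T
  intro u v w k1 k2
  simp only [flip, hSU] at k1 k2 ⊢
  grind

lemma flip_swap {T : Tourn V} (hT : Transitive T) (P Q : V → Prop)
    (h1 : ∀ u v, P u → Q v → T.arc u v)
    (hPQ : ∀ u v w, P u → Q w → T.arc u v → T.arc v w → P v ∨ Q v)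
    (S : V → V → Prop) (hS : ∀ u v, S u v → S v u)
    (hSU : ∀ u v, S u v ↔ ((P u ∧ Q v) ∨ (Q u ∧ P v))) : Transitive (flip T S hS) := by
  apply transitive_of_trans
  have tr : ∀ u v w, T.arc u v → T.arc v w → T.arc u w := fun u v w h1 h2 => hT.trans h1 h2
  have ir : ∀ u v, T.arc u v → T.arc v u → False := fun u v h1 h2 => asymm' T h1 h2
  have ir' : ∀ u, ¬ T.arc u u := T.loopless
  have tt := tri T
  intro u v w k1 k2
  simp only [flip, hSU] at k1 k2 ⊢
  grind

lemma aux1 [Fintype V] (M : Matrix V V (ZMod 2)) (a k : V → ZMod 2) :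
    ((fun u v => M u v + a u * a v : Matrix V V (ZMod 2)) *ᵥ k) = M *ᵥ k + (a ⬝ᵥ k) • a := by
  funext v
  simp only [Matrix.mulVec, dotProduct, Pi.add_apply, Pi.smul_apply, smul_eq_mul, add_mul,
    Finset.sum_add_distrib, Finset.sum_mul]
  congr 1
  refine Finset.sum_congr rfl fun w _ => ?_
  ring

lemma aux2 [Fintype V] (M : Matrix V V (ZMod 2)) (a b k : V → ZMod 2) :
    ((fun u v => M u v + (a u * b v + b u * a v) : Matrix V V (ZMod 2)) *ᵥ k) =
      M *ᵥ k + (b ⬝ᵥ k) • a + (a ⬝ᵥ k) • b := by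
  funext v
  simp only [Matrix.mulVec, dotProduct, Pi.add_apply, Pi.smul_apply, smul_eq_mul, add_mul,
    Finset.sum_add_distrib, Finset.sum_mul]
  rw [add_assoc]
  congr 1
  congr 1
  · refine Finset.sum_congr rfl fun w _ => ?_
    ring
  · refine Finset.sum_congr rfl fun w _ => ?_
    ring

/-- First case of the lower bound: some extra vertex with entry one on the diagonal. -/
lemma drop_diag [Fintype V] {D T : Tourn V} (hT : Transitive T) {M : Matrix V V (ZMod 2)}
    (hM : InM (diffGraph D T) M) (U : V → Prop) (hU : ∀ u v, U u → T.arc u v → U v)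
    (y : V → ZMod 2) (hy : ∀ v, (U v → (M *ᵥ y) v = 1) ∧ (¬ U v → (M *ᵥ y) v = 0))
    (h1 : y ⬝ᵥ M *ᵥ y = 1) : tmr D < M.rank := by
  classical
  have hE : ∀ u v, (M *ᵥ y) u * (M *ᵥ y) v = 1 → (M *ᵥ y) v * (M *ᵥ y) u = 1 := by
    intro u v h
    rw [mul_comm]
    exact h
  have hS : ∀ u v, (M *ᵥ y) u * (M *ᵥ y) v = 1 ↔ (U u ∧ U v) := by
    intro u v
    by_cases h2 : U u <;> by_cases h3 : U v <;>
      simp [h2, h3, (hy u).1, (hy u).2, (hy v).1, (hy v).2]
  have hF := flip_final hT U hU _ hE hS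
  refine lt_of_le_of_lt (tmr_le hF (inM_flip hM _ hE)) ?_
  refine rank_drop' M _ y ?_ h1
  intro k
  rw [← symm_dot M hM.symm]
  exact aux1 M _ k

/-- Second case of the lower bound: two adjacent intervals. -/
lemma drop_swap [Fintype V] {D T : Tourn V} (hT : Transitive T) {M : Matrix V V (ZMod 2)}
    (hM : InM (diffGraph D T) M) (P Q : V → Prop)
    (hd : ∀ v, P v → ¬ Q v)
    (h1 : ∀ u v, P u → Q v → T.arc u v)
    (hPQ : ∀ u v w, P u → Q w → T.arc u v → T.arc v w → P v ∨ Q v)
    (y z : V → ZMod 2) (hy : ∀ v, (P v → (M *ᵥ y) v = 1) ∧ (¬ P v → (M *ᵥ y) v = 0))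
    (hz : ∀ v, (Q v → (M *ᵥ z) v = 1) ∧ (¬ Q v → (M *ᵥ z) v = 0))
    (hzy : z ⬝ᵥ M *ᵥ y = 1) (hyy : y ⬝ᵥ M *ᵥ y = 0) : tmr D < M.rank := by
  classical
  have hE : ∀ u v, (M *ᵥ y) u * (M *ᵥ z) v + (M *ᵥ z) u * (M *ᵥ y) v = 1 →
      (M *ᵥ y) v * (M *ᵥ z) u + (M *ᵥ z) v * (M *ᵥ y) u = 1 := by
    intro u v h
    rw [← h]
    ring
  have hS : ∀ u v, (M *ᵥ y) u * (M *ᵥ z) v + (M *ᵥ z) u * (M *ᵥ y) v = 1 ↔
      ((P u ∧ Q v) ∨ (Q u ∧ P v)) := by
    intro u v
    have d1 := hd u
    have d2 := hd v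
    by_cases h2 : P u <;> by_cases h3 : P v <;> by_cases h4 : Q u <;> by_cases h5 : Q v <;>
      simp [h2, h3, h4, h5, (hy u).1, (hy u).2, (hy v).1, (hy v).2, (hz u).1, (hz u).2,
        (hz v).1, (hz v).2] at d1 d2 ⊢
  have hF := flip_swap hT P Q h1 hPQ _ hE hS
  refine lt_of_le_of_lt (tmr_le hF (inM_flip hM _ hE)) ?_
  refine rank_drop M _ y z ?_ hzy hyy
  intro k
  rw [← symm_dot M hM.symm, ← symm_dot M hM.symm]
  exact aux2 M _ _ k

lemma extract [Fintype V] [Fintype W] [DecidableEq W] [DecidableEq V]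
    (M' : Matrix (V ⊕ W) (V ⊕ W) (ZMod 2)) (hs : ∀ u v, M' u v = M' v u)
    (hr : M'.rank ≤ (M'.submatrix Sum.inl Sum.inl : Matrix V V (ZMod 2)).rank) :
    ∃ x : W → V → ZMod 2,
      (∀ i v, ((M'.submatrix Sum.inl Sum.inl : Matrix V V (ZMod 2)) *ᵥ x i) v =
        M' (Sum.inl v) (Sum.inr i)) ∧
      ∀ i j, x i ⬝ᵥ (M'.submatrix Sum.inl Sum.inl : Matrix V V (ZMod 2)) *ᵥ x j =
        M' (Sum.inr i) (Sum.inr j) := by
  set M : Matrix V V (ZMod 2) := M'.submatrix Sum.inl Sum.inl with hM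
  set B : Matrix (V ⊕ W) V (ZMod 2) := M'.submatrix id Sum.inl with hB
  have h1 : M.rank ≤ B.rank := by
    have : M = B.submatrix Sum.inl id := rfl
    rw [this]
    exact rank_submatrix_le B Sum.inl id
  have h3 : LinearMap.range B.mulVecLin ≤ LinearMap.range M'.mulVecLin := by
    rintro _ ⟨x, rfl⟩
    refine ⟨Sum.elim x 0, ?_⟩
    funext j
    simp [Matrix.mulVec, dotProduct, hB]
  have h4 : LinearMap.range B.mulVecLin = LinearMap.range M'.mulVecLin := by
    apply Submodule.eq_of_le_of_finrank_le h3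
    exact hr.trans h1
  have h5 : ∀ i : W, ∃ x : V → ZMod 2, B *ᵥ x = M' *ᵥ Pi.single (Sum.inr i) 1 := by
    intro i
    have : M' *ᵥ Pi.single (Sum.inr i) 1 ∈ LinearMap.range B.mulVecLin := by
      rw [h4]
      exact ⟨_, rfl⟩
    obtain ⟨x, hx⟩ := this
    exact ⟨x, hx⟩
  choose x hx using h5
  have h6 : ∀ i j, ∑ v, M' j (Sum.inl v) * x i v = M' j (Sum.inr i) := by
    intro i j
    have h8 := congrFun (hx i) j
    rw [Matrix.mulVec_single_one] at h8
    simpa [Matrix.mulVec, dotProduct, hB, Matrix.col] using h8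
  have h7 : ∀ i v, (M *ᵥ x i) v = M' (Sum.inl v) (Sum.inr i) := by
    intro i v
    exact h6 i (Sum.inl v)
  refine ⟨x, h7, ?_⟩
  intro i j
  rw [hs, ← h6 i (Sum.inr j)]
  simp only [dotProduct, h7]
  refine Finset.sum_congr rfl fun v _ => ?_
  rw [hs (Sum.inr j), mul_comm]

lemma lower [Fintype V] (D : Tourn V) : tmr D + 1 ≤ tmr (dijoin D C3) := by
  classical
  by_contra hcon
  have hle : tmr (dijoin D C3) ≤ tmr D := by omega
  obtain ⟨T', hT', M', hM', hr'⟩ := tmr_spec (dijoin D C3)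
  set M : Matrix V V (ZMod 2) := M'.submatrix Sum.inl Sum.inl with hMdef
  let T : Tourn V := ⟨fun u v => T'.arc (Sum.inl u) (Sum.inl v), fun v => T'.loopless _,
    fun u v h => T'.total _ _ (fun h2 => h (Sum.inl_injective h2))⟩
  have hT : Transitive T := by
    apply transitive_of_trans
    intro u v w h1 h2
    exact hT'.trans h1 h2
  have hM : InM (diffGraph D T) M := by
    rw [inM_iff] at hM' ⊢
    intro u v huv
    exact hM' (Sum.inl u) (Sum.inl v) huv
  have hMr : M.rank ≤ M'.rank := rank_submatrix_le M' Sum.inl Sum.inl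
  have hDM : tmr D ≤ M.rank := tmr_le hT hM
  obtain ⟨x, hx1, hx2⟩ := extract M' hM'.symm (by rw [← hMdef]; omega)
  rw [← hMdef] at hx1 hx2
  have hC : ∀ i j, C3.arc i j → (dijoin D C3).arc (Sum.inr i) (Sum.inr j) := fun _ _ h => h
  -- the sets of vertices after `i`
  let U : Fin 3 → V → Prop := fun i v => T'.arc (Sum.inr i) (Sum.inl v)
  have hU : ∀ i v, (U i v → (M *ᵥ x i) v = 1) ∧ (¬ U i v → (M *ᵥ x i) v = 0) := by
    intro i v
    rw [hx1]
    have hD : (dijoin D C3).arc (Sum.inl v) (Sum.inr i) := trivial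
    refine ⟨fun h => (hM'.one hD h).1, fun h => (hM'.zero hD ?_).1⟩
    rcases tri T' (Sum.inr i) (Sum.inl v) with h1 | h1 | h1
    · exact absurd h1 h
    · exact absurd h1 (by simp)
    · exact h1
  have hUup : ∀ i u v, U i u → T.arc u v → U i v := fun i u v h1 h2 => hT'.trans h1 h2
  have two : ∀ x : ZMod 2, x = 0 ∨ x = 1 := by decide
  have notlt : ¬ (tmr D < M.rank) := by omega
  -- the diagonal entries vanish
  have hdiag : ∀ i, x i ⬝ᵥ M *ᵥ x i = 0 := by
    intro i
    refine (two _).resolve_right fun h => notlt ?_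
    exact drop_diag hT hM (U i) (hUup i) (x i) (hU i) h
  have hsym : ∀ i j, x i ⬝ᵥ M *ᵥ x j = x j ⬝ᵥ M *ᵥ x i := by
    intro i j
    rw [hx2, hx2, hM'.symm]
  -- nested sets
  have hnest : ∀ i j, T'.arc (Sum.inr i) (Sum.inr j) → ∀ v, U j v → U i v :=
    fun i j h v h2 => hT'.trans h h2
  have e11 : (1 : ZMod 2) + 1 = 0 := by decide
  -- differences of nested sets
  have hdiff : ∀ i j, T'.arc (Sum.inr i) (Sum.inr j) → ∀ v,
      ((U i v ∧ ¬ U j v) → (M *ᵥ (x i + x j)) v = 1) ∧
      (¬ (U i v ∧ ¬ U j v) → (M *ᵥ (x i + x j)) v = 0) := by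
    intro i j hij v
    have h3 := hnest i j hij v
    rw [Matrix.mulVec_add, Pi.add_apply]
    by_cases h4 : U i v
    · by_cases h5 : U j v
      · rw [(hU i v).1 h4, (hU j v).1 h5]
        simp [h4, h5, e11]
      · rw [(hU i v).1 h4, (hU j v).2 h5]
        simp [h4, h5]
    · have h5 : ¬ U j v := fun h => h4 (h3 h)
      rw [(hU i v).2 h4, (hU j v).2 h5]
      simp [h4]
  -- one disagreement
  have caseB1 : ∀ i j k, T'.arc (Sum.inr i) (Sum.inr j) → T'.arc (Sum.inr j) (Sum.inr k) →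
      C3.arc i j → C3.arc j k → C3.arc k i → False := by
    intro i j k hij hjk cij cjk cki
    have hik := hT'.trans hij hjk
    have g1 : x i ⬝ᵥ M *ᵥ x j = 0 := by rw [hx2]; exact (hM'.zero (hC _ _ cij) hij).1
    have g2 : x j ⬝ᵥ M *ᵥ x k = 0 := by rw [hx2]; exact (hM'.zero (hC _ _ cjk) hjk).1
    have g3 : x i ⬝ᵥ M *ᵥ x k = 1 := by rw [hx2]; exact (hM'.one (hC _ _ cki) hik).2
    apply notlt
    refine drop_swap hT hM (fun v => U i v ∧ ¬ U j v) (fun v => U j v ∧ ¬ U k v) ?_ ?_ ?_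
      (x i + x j) (x j + x k) (hdiff i j hij) (hdiff j k hjk) ?_ ?_
    · rintro v ⟨_, h1⟩ ⟨h2, _⟩
      exact h1 h2
    · rintro u v ⟨_, h1⟩ ⟨h2, _⟩
      rcases tri T u v with h | h | h
      · exact h
      · subst h; exact absurd h2 h1
      · exact absurd (hUup j _ _ h2 h) h1
    · rintro u v w ⟨h1, h2⟩ ⟨h3, h4⟩ huv hvw
      have h5 : U i v := hUup i _ _ h1 huv
      have h6 : ¬ U k v := fun h => h4 (hUup k _ _ h hvw)
      by_cases h7 : U j v
      · exact Or.inr ⟨h7, h6⟩
      · exact Or.inl ⟨h5, h7⟩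
    · rw [Matrix.mulVec_add, add_dotProduct, dotProduct_add, dotProduct_add, hsym j i, hsym k i,
        hsym k j, g1, g2, g3, hdiag]
      decide
    · rw [Matrix.mulVec_add, add_dotProduct, dotProduct_add, dotProduct_add, hsym j i, g1, hdiag,
        hdiag]
      decide
  -- two disagreements
  have caseB2 : ∀ i j k, T'.arc (Sum.inr i) (Sum.inr j) → T'.arc (Sum.inr j) (Sum.inr k) →
      C3.arc j i → C3.arc k j → C3.arc i k → False := by
    intro i j k hij hjk cji ckj cik
    have hik := hT'.trans hij hjk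
    have g1 : x i ⬝ᵥ M *ᵥ x j = 1 := by rw [hx2]; exact (hM'.one (hC _ _ cji) hij).2
    have g2 : x j ⬝ᵥ M *ᵥ x k = 1 := by rw [hx2]; exact (hM'.one (hC _ _ ckj) hjk).2
    have g3 : x i ⬝ᵥ M *ᵥ x k = 0 := by rw [hx2]; exact (hM'.zero (hC _ _ cik) hik).1
    apply notlt
    refine drop_swap hT hM (fun v => U j v ∧ ¬ U k v) (fun v => U k v) ?_ ?_ ?_
      (x j + x k) (x k) (hdiff j k hjk) (hU k) ?_ ?_
    · rintro v ⟨_, h1⟩ h2
      exact h1 h2
    · rintro u v ⟨_, h1⟩ h2
      rcases tri T u v with h | h | h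
      · exact h
      · subst h; exact absurd h2 h1
      · exact absurd (hUup k _ _ h2 h) h1
    · rintro u v w ⟨h1, h2⟩ h3 huv hvw
      have h5 : U j v := hUup j _ _ h1 huv
      by_cases h7 : U k v
      · exact Or.inr h7
      · exact Or.inl ⟨h5, h7⟩
    · rw [Matrix.mulVec_add, dotProduct_add, hsym k j, g2, hdiag]
      decide
    · rw [Matrix.mulVec_add, add_dotProduct, dotProduct_add, dotProduct_add, hsym k j, g2, hdiag,
        hdiag]
      decide
  have c01 : C3.arc 0 1 := by simp [C3]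
  have c12 : C3.arc 1 2 := by simp [C3]
  have c20 : C3.arc 2 0 := by simp [C3]
  have t01 := tri T' (Sum.inr 0) (Sum.inr 1)
  have t12 := tri T' (Sum.inr 1) (Sum.inr 2)
  have t20 := tri T' (Sum.inr 2) (Sum.inr 0)
  have n01 : ¬ ((Sum.inr 0 : V ⊕ Fin 3) = Sum.inr 1) := by simp
  have n12 : ¬ ((Sum.inr 1 : V ⊕ Fin 3) = Sum.inr 2) := by simp
  have n20 : ¬ ((Sum.inr 2 : V ⊕ Fin 3) = Sum.inr 0) := by simp
  rcases t01 with h1 | h1 | h1
  · rcases t12 with h2 | h2 | h2
    · exact caseB1 0 1 2 h1 h2 c01 c12 c20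
    · exact n12 h2
    · rcases t20 with h3 | h3 | h3
      · -- 2 < 0 < 1
        exact caseB1 2 0 1 h3 h1 c20 c01 c12
      · exact n20 h3
      · -- 0 < 2 < 1
        exact caseB2 0 2 1 h3 h2 c20 c12 c01
  · exact n01 h1
  · rcases t12 with h2 | h2 | h2
    · rcases t20 with h3 | h3 | h3
      · -- 1 < 2 < 0
        exact caseB1 1 2 0 h2 h3 c12 c20 c01
      · exact n20 h3
      · -- 1 < 0 < 2
        exact caseB2 1 0 2 h1 h3 c01 c20 c12
    · exact n12 h2
    · -- 2 < 1 < 0
      exact caseB2 2 1 0 h2 h1 c12 c01 c20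

lemma rank_add_le' [Fintype V] (A B : Matrix V V (ZMod 2)) : (A + B).rank ≤ A.rank + B.rank := by
  rw [Matrix.rank, Matrix.mulVecLin_add]
  refine (Submodule.finrank_mono ?_).trans (Submodule.finrank_add_le_finrank_add_finrank _ _)
  exact LinearMap.range_add_le _ _

lemma upper [Fintype V] (D : Tourn V) : tmr (dijoin D C3) ≤ tmr D + 1 := by
  classical
  obtain ⟨T, hT, M, hM, hr⟩ := tmr_spec D
  rw [← hr]
  let L : Tourn (Fin 3) := ⟨fun i j => i < j, by decide, by decide⟩
  have hL : ∀ i j k : Fin 3, L.arc i j → L.arc j k → L.arc i k := fun i j k h1 h2 => lt_trans h1 h2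
  have hT2 : Transitive (dijoin T L) := by
    apply transitive_of_trans
    rintro (u | u) (v | v) (w | w) h1 h2
    · exact hT.trans h1 h2
    · trivial
    · exact absurd h2 (by simp [dijoin])
    · trivial
    · exact absurd h1 (by simp [dijoin])
    · exact absurd h1 (by simp [dijoin])
    · exact absurd h2 (by simp [dijoin])
    · exact hL _ _ _ h1 h2
  let w : V ⊕ Fin 3 → ZMod 2 := fun x => match x with
    | Sum.inl _ => 0
    | Sum.inr i => if i = 1 then 0 else 1
  let E : Matrix (V ⊕ Fin 3) V (ZMod 2) := Matrix.fromRows 1 0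
  have hN : InM (diffGraph (dijoin D C3) (dijoin T L)) (E * M * Eᵀ + Matrix.vecMulVec w w) := by
    have hE : E * M * Eᵀ = Matrix.fromBlocks M 0 0 0 := by
      have h1 : E * M = Matrix.fromRows M 0 := by
        simp [E, Matrix.fromRows_mul]
      rw [h1]
      have h2 : Eᵀ = Matrix.fromCols 1 0 := by
        simp [E, Matrix.transpose_fromRows]
      rw [h2, Matrix.fromRows_mul_fromCols]
      simp
    rw [hE]
    rw [inM_iff] at hM ⊢
    rintro (u | u) (v | v) h
    · simpa [Matrix.vecMulVec_apply, w, dijoin] using hM u v h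
    · simp [Matrix.vecMulVec_apply, w, dijoin]
    · exact absurd h (by simp [dijoin])
    · have key : ∀ i j : Fin 3, j = i + 1 →
        ((j < i → (if i = 1 then (0 : ZMod 2) else 1) * (if j = 1 then 0 else 1) = 1 ∧
          (if j = 1 then (0 : ZMod 2) else 1) * (if i = 1 then 0 else 1) = 1) ∧
        (i < j → (if i = 1 then (0 : ZMod 2) else 1) * (if j = 1 then 0 else 1) = 0 ∧
          (if j = 1 then (0 : ZMod 2) else 1) * (if i = 1 then 0 else 1) = 0)) := by
        decide
      have := key u v h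
      simpa [Matrix.vecMulVec_apply, w, dijoin, L] using this
  refine (tmr_le hT2 hN).trans ?_
  refine (rank_add_le' _ _).trans ?_
  refine add_le_add ?_ (Matrix.rank_vecMulVec_le w w)
  exact (Matrix.rank_mul_le_left _ _).trans (Matrix.rank_mul_le_right _ _)

lemma eq_first [Fintype V] (D : Tourn V) : tmr (dijoin D C3) = tmr D + 1 :=
  le_antisymm (upper D) (lower D)

/-- **Main result.** For every tournament `D` on a finite vertex set,
`tmr (D → C₃) = tmr D + 1 = tmr (C₃ → D)`. -/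
theorem result : ∀ (V : Type) [Fintype V] (D : Tourn V),
    tmr (dijoin D C3) = tmr D + 1 ∧ tmr D + 1 = tmr (dijoin C3 D) := by
  intro V _ D
  refine ⟨eq_first D, ?_⟩
  rw [← tmr_rev D, ← eq_first (rev D), ← tmr_rev (dijoin C3 D)]
  let e3 : Fin 3 ≃ Fin 3 := Equiv.neg (Fin 3)
  have he3 : ∀ i j : Fin 3, C3.arc i j ↔ C3.arc (e3 j) (e3 i) := by
    show ∀ i j : Fin 3, j = i + 1 ↔ -i = -j + 1
    decide
  refine tmr_iso _ _ ((Equiv.sumComm V (Fin 3)).trans (Equiv.sumCongr e3 (Equiv.refl V))) ?_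
  rintro (u | u) (v | v)
  · simp [dijoin, rev]
  · simp [dijoin, rev]
  · simp [dijoin, rev]
  · simpa [dijoin, rev] using he3 u v

end Pool.Agent.Results.MP_7ecff9_co.DijoinTriangle
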